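import Mathlib

/-!
Noise lemma for N13 (helper663).  If the slope `lam` is within `1/q^2` of a reduced fraction
`p/q`, then sums of `fract (beta + lam*y) - 1/2` over `K` consecutive `y` are at most
`3*K/q + q/2` in absolute value.  `exists_odd`: choice of the odd number `v`.
-/

namespace Pool.Agent.TH663.N13

open Finset

/-- the map `y ↦ (c + p*y) mod q` permutes `range q` -/
theorem perm_image {q : ℕ} (hq : 0 < q) {p : ℤ} (hp : IsCoprime p (q : ℤ)) (c : ℤ) :
    Set.InjOn (fun y : ℕ => ((c + p * y) % (q : ℤ)).toNat) (range q : Finset ℕ) ∧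
    (range q).image (fun y : ℕ => ((c + p * y) % (q : ℤ)).toNat) = range q := by
  have hqz : (0 : ℤ) < q := by exact_mod_cast hq
  have hinj : Set.InjOn (fun y : ℕ => ((c + p * y) % (q : ℤ)).toNat) (range q : Finset ℕ) := by
    intro a ha b hb hab
    simp only [coe_range, Set.mem_Iio] at ha hb
    simp only at hab
    have h1 : 0 ≤ (c + p * a) % (q : ℤ) := Int.emod_nonneg _ hqz.ne'
    have h2 : 0 ≤ (c + p * b) % (q : ℤ) := Int.emod_nonneg _ hqz.ne'
    have h3 : (c + p * a) % (q : ℤ) = (c + p * b) % (q : ℤ) := by omega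
    have h4 : (q : ℤ) ∣ p * ((a : ℤ) - b) := by
      have := Int.emod_emod_of_dvd
      have h5 := Int.ModEq.dvd (show (c + p * b) ≡ (c + p * a) [ZMOD q] from h3.symm)
      have h6 : (c + p * a) - (c + p * b) = p * ((a : ℤ) - b) := by ring
      rwa [h6] at h5
    have h5 : (q : ℤ) ∣ (a : ℤ) - b := hp.symm.dvd_of_dvd_mul_left h4
    have h6 : |(a : ℤ) - b| < q := by
      rw [abs_lt]; constructor <;> omega
    have h7 : (a : ℤ) - b = 0 := Int.eq_zero_of_abs_lt_dvd h5 h6
    omega
  refine ⟨hinj, ?_⟩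
  apply Finset.eq_of_subset_of_card_le
  · intro z hz
    rw [mem_image] at hz
    obtain ⟨y, -, rfl⟩ := hz
    rw [mem_range]
    have h1 : 0 ≤ (c + p * y) % (q : ℤ) := Int.emod_nonneg _ hqz.ne'
    have h2 : (c + p * y) % (q : ℤ) < q := Int.emod_lt_of_pos _ hqz
    omega
  · rw [card_image_of_injOn hinj]

/-- one term: the fractional part against its linear value -/
theorem term_bound {q : ℕ} (hq : 2 ≤ q) {t : ℝ} {r : ℕ} (hr : r < q)
    (h1 : ((r : ℝ) - 1) / q < t) (h2 : t < ((r : ℝ) + 2) / q) :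
    |Int.fract t - t| ≤ (if r = 0 then 1 else 0) + (if r = q - 1 then 1 else 0) := by
  have hq0 : (0 : ℝ) < q := by positivity
  have hq2 : (2 : ℝ) ≤ q := by exact_mod_cast hq
  have hfl : t - Int.fract t = ⌊t⌋ := by
    have := Int.floor_add_fract t
    linarith
  have habs : |Int.fract t - t| = |((⌊t⌋ : ℤ) : ℝ)| := by
    rw [← hfl, abs_sub_comm]
  rw [habs]
  have hlow : (-1 : ℤ) ≤ ⌊t⌋ := by
    rw [Int.le_floor]
    have : (-1 : ℝ) ≤ ((r : ℝ) - 1) / q := by
      rw [le_div_iff₀ hq0]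
      have : (0 : ℝ) ≤ r := by positivity
      nlinarith
    push_cast
    linarith
  have hup : ⌊t⌋ ≤ 1 := by
    have : ⌊t⌋ < 2 := by
      rw [Int.floor_lt]
      have hr' : (r : ℝ) + 1 ≤ q := by exact_mod_cast hr
      have : ((r : ℝ) + 2) / q ≤ 2 := by
        rw [div_le_iff₀ hq0]
        nlinarith
      push_cast
      linarith
    omega
  by_cases h0 : r = 0
  · simp only [h0, if_true]
    have h3 : |((⌊t⌋ : ℤ) : ℝ)| ≤ 1 := by
      have h4 : |⌊t⌋| ≤ 1 := abs_le.mpr ⟨hlow, hup⟩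
      exact_mod_cast h4
    have : (0 : ℝ) ≤ (if 0 = q - 1 then 1 else 0) := by split_ifs <;> norm_num
    linarith
  · by_cases h1' : r = q - 1
    · simp only [h1', if_true]
      have h3 : |((⌊t⌋ : ℤ) : ℝ)| ≤ 1 := by
        have h4 : |⌊t⌋| ≤ 1 := abs_le.mpr ⟨hlow, hup⟩
        exact_mod_cast h4
      have : (0 : ℝ) ≤ (if q - 1 = 0 then 1 else 0) := by split_ifs <;> norm_num
      linarith
    · simp only [h0, if_false, h1']
      have hr1 : (1 : ℝ) ≤ r := by
        have : 1 ≤ r := by omega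
        exact_mod_cast this
      have hr2 : (r : ℝ) + 2 ≤ q := by
        have : r + 2 ≤ q := by omega
        exact_mod_cast this
      have h3 : ⌊t⌋ = 0 := by
        rw [Int.floor_eq_zero_iff]
        constructor
        · have : 0 ≤ ((r : ℝ) - 1) / q := div_nonneg (by linarith) hq0.le
          linarith
        · have : ((r : ℝ) + 2) / q ≤ 1 := by
            rw [div_le_one hq0]; exact hr2
          linarith
      rw [h3]
      simp

/-- a full block of `q` terms -/
theorem block_bound {q : ℕ} (hq : 2 ≤ q) {p : ℤ} (hp : IsCoprime p (q : ℤ)) {lam : ℝ}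
    (hlam : |lam - p / q| ≤ 1 / (q : ℝ) ^ 2) (beta : ℝ) :
    |∑ y ∈ range q, (Int.fract (beta + lam * y) - 1 / 2)| ≤ 3 := by
  have hq0 : (0 : ℝ) < q := by positivity
  have hq2 : (2 : ℝ) ≤ q := by exact_mod_cast hq
  have hqz : (0 : ℤ) < q := by omega
  set c : ℤ := ⌊(q : ℝ) * beta⌋ with hc
  set ε : ℝ := Int.fract ((q : ℝ) * beta) with hε
  have hε0 : 0 ≤ ε := Int.fract_nonneg _
  have hε1 : ε < 1 := Int.fract_lt_one _
  have hbeta : beta = (c + ε) / q := by
    have := Int.floor_add_fract ((q : ℝ) * beta)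
    rw [eq_div_iff hq0.ne']
    rw [mul_comm]
    exact this.symm
  set φ : ℕ → ℕ := fun y : ℕ => ((c + p * y) % (q : ℤ)).toNat with hφ
  obtain ⟨hinj, himg⟩ := perm_image (by omega) hp c
  -- the shifted values
  set t : ℕ → ℝ := fun y => ((φ y : ℝ) + ε) / q + (lam - p / q) * y with ht
  have hfr : ∀ y : ℕ, Int.fract (beta + lam * y) = Int.fract (t y) := by
    intro y
    have h1 : ((φ y : ℕ) : ℤ) = (c + p * y) % (q : ℤ) := by
      simp only [hφ]
      exact Int.toNat_of_nonneg (Int.emod_nonneg _ hqz.ne')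
    have h2 : (c + p * y) = (q : ℤ) * ((c + p * y) / (q : ℤ)) + ((φ y : ℕ) : ℤ) := by
      rw [h1]
      exact (Int.mul_ediv_add_emod _ _).symm
    set z : ℤ := (c + p * y) / (q : ℤ) with hz
    have h3 : (c : ℝ) + p * y = q * z + φ y := by exact_mod_cast h2
    have h4 : beta + lam * y = t y + (z : ℤ) := by
      simp only [ht]
      rw [hbeta]
      field_simp
      linear_combination h3
    rw [h4, Int.fract_add_intCast]
  have hmem : ∀ y ∈ range q, φ y < q := by
    intro y hy
    have : φ y ∈ (range q).image φ := mem_image_of_mem φ hy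
    rw [himg] at this
    exact mem_range.mp this
  have hθ : ∀ y ∈ range q, |(lam - p / q) * (y : ℝ)| < 1 / q := by
    intro y hy
    rw [mem_range] at hy
    have hy' : (y : ℝ) < q := by exact_mod_cast hy
    rw [abs_mul, abs_of_nonneg (show (0 : ℝ) ≤ (y : ℝ) by positivity)]
    calc |lam - p / q| * (y : ℝ) ≤ 1 / (q : ℝ) ^ 2 * y := by
          apply mul_le_mul_of_nonneg_right hlam (by positivity)
      _ < 1 / (q : ℝ) ^ 2 * q := by
          apply mul_lt_mul_of_pos_left hy' (by positivity)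
      _ = 1 / q := by field_simp
  have hterm : ∀ y ∈ range q, |Int.fract (t y) - t y|
      ≤ (if φ y = 0 then 1 else 0) + (if φ y = q - 1 then 1 else 0) := by
    intro y hy
    have h1 := abs_lt.mp (hθ y hy)
    apply term_bound hq (hmem y hy)
    · simp only [ht]
      rw [sub_div, add_div]
      have : 0 ≤ ε / q := by positivity
      linarith [h1.1]
    · simp only [ht]
      have : ε / q < 1 / q := by
        apply div_lt_div_of_pos_right hε1 hq0
      rw [add_div, add_div]
      have h2 : (2 : ℝ) / q = 1 / q + 1 / q := by ring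
      rw [h2]
      linarith [h1.2]
  -- the error sum
  have herr : ∑ y ∈ range q, |Int.fract (t y) - t y| ≤ 2 := by
    calc ∑ y ∈ range q, |Int.fract (t y) - t y|
        ≤ ∑ y ∈ range q, (((if φ y = 0 then 1 else 0) + (if φ y = q - 1 then 1 else 0) : ℝ)) :=
          sum_le_sum hterm
      _ = ∑ r ∈ (range q).image φ, (((if r = 0 then 1 else 0) + (if r = q - 1 then 1 else 0) : ℝ)) := by
          rw [sum_image hinj]
      _ = ∑ r ∈ range q, (((if r = 0 then 1 else 0) + (if r = q - 1 then 1 else 0) : ℝ)) := by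
          rw [himg]
      _ = 2 := by
          rw [sum_add_distrib, sum_ite_eq', sum_ite_eq']
          rw [if_pos (mem_range.mpr (by omega)), if_pos (mem_range.mpr (by omega))]
          norm_num
  have hmain : ∑ y ∈ range q, ((φ y : ℝ) + ε) / q = ((q : ℝ) - 1) / 2 + ε := by
    have h1 : ∑ y ∈ range q, ((φ y : ℝ) + ε) / q = ∑ r ∈ range q, ((r : ℝ) + ε) / q := by
      calc ∑ y ∈ range q, ((φ y : ℝ) + ε) / q = ∑ r ∈ (range q).image φ, ((r : ℝ) + ε) / q := by
            rw [sum_image hinj]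
        _ = _ := by rw [himg]
    rw [h1, ← sum_div, sum_add_distrib, sum_const, card_range, nsmul_eq_mul]
    have h2 : (∑ r ∈ range q, (r : ℝ)) = (q : ℝ) * (q - 1) / 2 := by
      have h3 := Finset.sum_range_id_mul_two q
      have h4 : ((∑ i ∈ range q, i : ℕ) : ℝ) * 2 = (q : ℝ) * ((q : ℝ) - 1) := by
        have h5 : ((∑ i ∈ range q, i : ℕ) * 2 : ℕ) = q * (q - 1) := h3
        have h6 : (((∑ i ∈ range q, i : ℕ) * 2 : ℕ) : ℝ) = ((q * (q - 1) : ℕ) : ℝ) := by rw [h5]
        rw [Nat.cast_mul, Nat.cast_mul, Nat.cast_sub (by omega)] at h6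
        simpa using h6
      rw [Nat.cast_sum] at h4
      linarith
    rw [h2]
    field_simp
  have hθs : |∑ y ∈ range q, (lam - p / q) * (y : ℝ)| ≤ 1 / 2 := by
    rw [← mul_sum]
    have h2 : (∑ r ∈ range q, (r : ℝ)) = (q : ℝ) * (q - 1) / 2 := by
      have h3 := Finset.sum_range_id_mul_two q
      have h4 : ((∑ i ∈ range q, i : ℕ) : ℝ) * 2 = (q : ℝ) * ((q : ℝ) - 1) := by
        have h6 : (((∑ i ∈ range q, i : ℕ) * 2 : ℕ) : ℝ) = ((q * (q - 1) : ℕ) : ℝ) := by rw [h3]
        rw [Nat.cast_mul, Nat.cast_mul, Nat.cast_sub (by omega)] at h6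
        simpa using h6
      rw [Nat.cast_sum] at h4
      linarith
    rw [h2, abs_mul, abs_of_nonneg (show (0 : ℝ) ≤ (q : ℝ) * (q - 1) / 2 by
      apply div_nonneg _ (by norm_num); apply mul_nonneg hq0.le; linarith)]
    calc |lam - p / q| * ((q : ℝ) * (q - 1) / 2) ≤ 1 / (q : ℝ) ^ 2 * ((q : ℝ) * (q - 1) / 2) := by
          apply mul_le_mul_of_nonneg_right hlam
          apply div_nonneg _ (by norm_num); apply mul_nonneg hq0.le; linarith
      _ = (1 - 1 / q) / 2 := by field_simp
      _ ≤ 1 / 2 := by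
          have : 0 ≤ 1 / (q : ℝ) := by positivity
          linarith
  have hsplit : ∑ y ∈ range q, (Int.fract (beta + lam * y) - 1 / 2)
      = ∑ y ∈ range q, (Int.fract (t y) - t y) + (ε - 1 / 2)
        + ∑ y ∈ range q, (lam - p / q) * (y : ℝ) := by
    have h1 : ∑ y ∈ range q, (Int.fract (beta + lam * y) - 1 / 2)
        = ∑ y ∈ range q, ((Int.fract (t y) - t y) + ((φ y : ℝ) + ε) / q
          + (lam - p / q) * (y : ℝ) - 1 / 2) := by
      apply sum_congr rfl
      intro y _
      rw [hfr y]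
      simp only [ht]
      ring
    rw [h1, sum_sub_distrib, sum_add_distrib, sum_add_distrib, hmain, sum_const, card_range,
      nsmul_eq_mul]
    ring
  rw [hsplit]
  have h5 : |∑ y ∈ range q, (Int.fract (t y) - t y)| ≤ 2 :=
    (abs_sum_le_sum_abs _ _).trans herr
  rw [abs_le] at h5 hθs ⊢
  constructor <;> linarith [h5.1, h5.2, hθs.1, hθs.2]

/-- `K` consecutive terms -/
theorem noise {q : ℕ} (hq : 2 ≤ q) {p : ℤ} (hp : IsCoprime p (q : ℤ)) {lam : ℝ}
    (hlam : |lam - p / q| ≤ 1 / (q : ℝ) ^ 2) (K : ℕ) :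
    ∀ beta : ℝ, |∑ y ∈ range K, (Int.fract (beta + lam * y) - 1 / 2)| ≤ 3 * K / q + q / 2 := by
  have hq0 : (0 : ℝ) < q := by positivity
  induction K using Nat.strong_induction_on with
  | _ K ih =>
    intro beta
    by_cases hK : K < q
    · have hK' : (K : ℝ) ≤ q := by exact_mod_cast hK.le
      calc |∑ y ∈ range K, (Int.fract (beta + lam * y) - 1 / 2)|
          ≤ ∑ y ∈ range K, |Int.fract (beta + lam * y) - 1 / 2| := abs_sum_le_sum_abs _ _
        _ ≤ ∑ y ∈ range K, (1 / 2 : ℝ) := by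
            apply sum_le_sum
            intro y _
            have h1 := Int.fract_nonneg (beta + lam * y)
            have h2 := Int.fract_lt_one (beta + lam * y)
            rw [abs_le]
            constructor <;> linarith
        _ = K / 2 := by rw [sum_const, card_range, nsmul_eq_mul]; ring
        _ ≤ 3 * K / q + q / 2 := by
            have : 0 ≤ 3 * (K : ℝ) / q := by positivity
            linarith
    · push Not at hK
      obtain ⟨K', rfl⟩ := Nat.exists_eq_add_of_le hK
      have h1 := ih K' (by omega) (beta + lam * q)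
      have h2 := block_bound hq hp hlam beta
      rw [Finset.sum_range_add]
      have h3 : ∑ x ∈ range K', (Int.fract (beta + lam * ((q + x : ℕ) : ℝ)) - 1 / 2)
          = ∑ y ∈ range K', (Int.fract (beta + lam * q + lam * y) - 1 / 2) := by
        apply sum_congr rfl
        intro y _
        congr 2
        push_cast
        ring
      rw [h3]
      refine (abs_add_le _ _).trans ?_
      have h4 : 3 * ((q + K' : ℕ) : ℝ) / q + q / 2 = 3 + (3 * K' / q + q / 2) := by
        push_cast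
        field_simp
        ring
      rw [h4]
      exact add_le_add h2 h1

/-- choice of the odd number `v` -/
theorem exists_odd_near {k q : ℕ} (hk : q ^ 2 ≤ k) (hq : 2 ≤ q) (p : ℤ) (s : ℝ) :
    ∃ v : ℤ, Odd v ∧ |(s - v) / k - p / q| ≤ 1 / (q : ℝ) ^ 2 := by
  have hq0 : (0 : ℝ) < q := by positivity
  have hk0 : (0 : ℝ) < k := by
    have : 0 < k := lt_of_lt_of_le (by positivity) hk
    exact_mod_cast this
  set t : ℝ := s - k * p / q with ht
  refine ⟨2 * ⌊t / 2⌋ + 1, ⟨_, rfl⟩, ?_⟩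
  have h1 : (⌊t / 2⌋ : ℝ) ≤ t / 2 := Int.floor_le _
  have h2 : t / 2 < ⌊t / 2⌋ + 1 := Int.lt_floor_add_one _
  have h3 : (s - ((2 * ⌊t / 2⌋ + 1 : ℤ) : ℝ)) / k - p / q = (t - (2 * ⌊t / 2⌋ + 1)) / k := by
    rw [ht]
    push_cast
    field_simp
    ring
  rw [h3, abs_div, abs_of_pos hk0]
  have h4 : |t - (2 * (⌊t / 2⌋ : ℝ) + 1)| ≤ 1 := by
    rw [abs_le]
    constructor <;> linarith
  have h5 : (q : ℝ) ^ 2 ≤ k := by exact_mod_cast hk
  calc |t - (2 * (⌊t / 2⌋ : ℝ) + 1)| / k ≤ 1 / k := by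
        apply div_le_div_of_nonneg_right h4 hk0.le
    _ ≤ 1 / (q : ℝ) ^ 2 := by
        apply one_div_le_one_div_of_le (by positivity) h5

/-- **noise with choice of `v`**: for every `ε > 0` there is `k0` such that for every `k ≥ k0`,
every real `s` and every integer `z` there is an odd `v` with slope `lam = (s-v)/k` in `(z, z+1)`
and all sums over at most `3k` consecutive terms at most `ε k`. -/
theorem exists_v (ε : ℝ) (hε : 0 < ε) : ∃ k0 : ℕ, 0 < k0 ∧ ∀ k : ℕ, k0 ≤ k → ∀ (s : ℝ) (z : ℤ),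
    ∃ v : ℤ, Odd v ∧ (z : ℝ) < (s - v) / k ∧ (s - v) / k < z + 1 ∧
      ∀ (beta : ℝ) (K : ℕ), K ≤ 3 * k →
        |∑ i ∈ range K, (Int.fract (beta + (s - v) / k * i) - 1 / 2)| ≤ ε * k := by
  obtain ⟨q, hq⟩ := exists_nat_gt (18 / ε + 2)
  have hεq : 0 < 18 / ε := by positivity
  have hq2 : 2 ≤ q := by
    have : (2 : ℝ) < q := by linarith
    have : 2 < q := by exact_mod_cast this
    omega
  have hq0 : (0 : ℝ) < q := by positivity
  have h9 : 9 / (q : ℝ) ≤ ε / 2 := by
    rw [div_le_iff₀ hq0]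
    have : 18 / ε < q := by linarith
    rw [div_lt_iff₀ hε] at this
    linarith
  obtain ⟨k1, hk1⟩ := exists_nat_gt ((q : ℝ) / ε)
  refine ⟨max (q ^ 2) k1, lt_of_lt_of_le (by positivity) (le_max_left _ _), ?_⟩
  intro k hk s z
  have hkq : q ^ 2 ≤ k := (le_max_left _ _).trans hk
  have hkk : k1 ≤ k := (le_max_right _ _).trans hk
  obtain ⟨v, hv, hlam⟩ := exists_odd_near hkq hq2 (z * q + 1) s
  have hcop : IsCoprime (z * q + 1 : ℤ) (q : ℤ) := ⟨1, -z, by ring⟩
  have hpq : (((z * q + 1 : ℤ) : ℝ)) / q = z + 1 / q := by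
    push_cast
    field_simp
  have hab := abs_le.mp hlam
  rw [hpq] at hab
  have hq1 : 1 / (q : ℝ) ^ 2 ≤ 1 / q / 2 := by
    rw [div_div, div_le_div_iff₀ (by positivity) (by positivity)]
    have : (2 : ℝ) ≤ q := by exact_mod_cast hq2
    nlinarith
  have hq3 : 1 / (q : ℝ) ≤ 1 / 2 := by
    apply one_div_le_one_div_of_le (by norm_num)
    exact_mod_cast hq2
  have hq4 : 0 < 1 / (q : ℝ) := by positivity
  refine ⟨v, hv, by linarith [hab.1], by linarith [hab.2], ?_⟩
  intro beta K hK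
  refine (noise hq2 hcop hlam K beta).trans ?_
  have hK' : (K : ℝ) ≤ 3 * k := by exact_mod_cast hK
  have hk' : (q : ℝ) / ε ≤ k := by
    have : (k1 : ℝ) ≤ k := by exact_mod_cast hkk
    linarith
  rw [div_le_iff₀ hε] at hk'
  have h10 : 3 * (K : ℝ) / q ≤ ε / 2 * k := by
    calc 3 * (K : ℝ) / q ≤ 3 * (3 * k) / q := by
          apply div_le_div_of_nonneg_right _ hq0.le
          linarith
      _ = 9 / q * k := by ring
      _ ≤ ε / 2 * k := by
          apply mul_le_mul_of_nonneg_right h9 (by positivity)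
  linarith

end Pool.Agent.TH663.N13
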